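import Pool.Agent.W990.EB.Stm

set_option autoImplicit false

namespace Pool.Agent.W853.EB

open Finset Pool.Agent.W990.EB

theorem exp_gap {t : ℝ} (h0 : 0 < t) (h1 : t ≤ 1) : 2 * t / 3 ≤ 1 - Real.exp (-(2 * t)) := by
  have h2 : 1 + 2 * t ≤ Real.exp (2 * t) := by
    have := Real.add_one_le_exp (2 * t)
    linarith
  have h3 : Real.exp (-(2 * t)) * Real.exp (2 * t) = 1 := by
    rw [← Real.exp_add]
    simp
  have h4 : 0 < Real.exp (-(2 * t)) := Real.exp_pos _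
  nlinarith

theorem geo {t : ℝ} (h0 : 0 < t) (h1 : t ≤ 1) (M : ℕ) :
    ∑ n ∈ range (M + 1), Real.exp (-(2 * t * n)) ≤ 3 / (2 * t) := by
  have h2 : ∀ n : ℕ, Real.exp (-(2 * t * n)) = Real.exp (-(2 * t)) ^ n := by
    intro n
    rw [← Real.exp_nat_mul]
    congr 1
    ring
  simp only [h2]
  set x := Real.exp (-(2 * t)) with hx
  have hx0 : 0 < x := Real.exp_pos _
  have hg := exp_gap h0 h1
  rw [← hx] at hg
  have h3 : (∑ n ∈ range (M + 1), x ^ n) * (1 - x) = 1 - x ^ (M + 1) := geom_sum_mul_neg x (M + 1)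
  have h4 : 0 ≤ ∑ n ∈ range (M + 1), x ^ n := Finset.sum_nonneg fun i _ => (pow_pos hx0 i).le
  rw [le_div_iff₀ (by positivity)]
  have h5 : 0 < x ^ (M + 1) := pow_pos hx0 _
  nlinarith

theorem En_eq (M : ℕ) (U : ℕ → ℝ) :
    En (range (M + 1)) (fun n : ℕ => (n : ℤ)) U = ∑ n ∈ range (M + 1), U n * U n := by
  unfold En
  apply Finset.sum_congr rfl
  intro i hi
  rw [Finset.sum_eq_single i]
  · simp
  · intro j _ hj
    rw [if_neg]
    intro h
    have h' : (i : ℤ) = (j : ℤ) := h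
    exact hj (by exact_mod_cast h'.symm)
  · intro h
    exact absurd hi h

theorem up (hjs : S_JS) (h1 : S_V1) (h2 : S_V2) (hc : S_VC) (he : S_VE) : S_UP := by
  intro K R hK
  refine ⟨180 * (R : ℝ) ^ 2 * (K : ℝ) ^ 2, by positivity, ?_⟩
  intro M S hR hM t c ht ht1 hc0 hc1
  have hKr : (1 : ℝ) ≤ K := by exact_mod_cast hK
  set U : ℕ → ℝ := fun n => ((r S n : ℝ) - c) * Real.exp (-(t * n)) with hU
  set V : ℕ → ℝ := fun n => Real.exp (-(t * n)) with hV
  have e0 : (fun n : ℕ => (r S n : ℝ) * Real.exp (-(t * n))) = fun n => U n + c * V n := by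
    funext n
    simp only [hU, hV]
    ring
  have hJ := hjs K M S t hM
  rw [e0] at hJ
  have hC := hc ℕ K (range (M + 1)) (fun n : ℕ => (n : ℤ)) U V c hK
  rw [← hJ, abs_of_nonneg hc0] at hC
  have hU0 := h1 ℕ K (range (M + 1)) (fun n : ℕ => (n : ℤ)) U hK
  have hU2 := h2 ℕ K (range (M + 1)) (fun n : ℕ => (n : ℤ)) U hK
  have hV0 := h1 ℕ K (range (M + 1)) (fun n : ℕ => (n : ℤ)) V hK
  have hV2 := he K M t hK ht ht1
  rw [En_eq] at hU2
  have e1 : ∀ n : ℕ, U n * U n = ((r S n : ℝ) - c) ^ 2 * Real.exp (-(2 * t * n)) := by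
    intro n
    have : Real.exp (-(2 * t * n)) = Real.exp (-(t * n)) * Real.exp (-(t * n)) := by
      rw [← Real.exp_add]
      congr 1
      ring
    simp only [hU]
    rw [this]
    ring
  simp only [e1] at hU2
  set WU := W K (range (M + 1)) (fun n : ℕ => (n : ℤ)) U with hWU
  set WV := W K (range (M + 1)) (fun n : ℕ => (n : ℤ)) V with hWV
  have hWV2 : WV ≤ 20 * (K : ℝ) ^ 2 := hV2
  have hE : ∑ n ∈ range (M + 1), ((r S n : ℝ) - c) ^ 2 * Real.exp (-(2 * t * n)) ≤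
      16 * (R : ℝ) ^ 2 / t := by
    have h3 : ∑ n ∈ range (M + 1), ((r S n : ℝ) - c) ^ 2 * Real.exp (-(2 * t * n)) ≤
        ∑ n ∈ range (M + 1), 9 * (R : ℝ) ^ 2 * Real.exp (-(2 * t * n)) := by
      apply Finset.sum_le_sum
      intro n _
      apply mul_le_mul_of_nonneg_right _ (Real.exp_pos _).le
      have h4 : (r S n : ℝ) ≤ R := by exact_mod_cast hR n
      have h5 : (0 : ℝ) ≤ r S n := Nat.cast_nonneg _
      have h6 : (0 : ℝ) ≤ R := Nat.cast_nonneg _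
      have h7 : |(r S n : ℝ) - c| ≤ 3 * R := by
        rw [abs_le]
        constructor <;> linarith
      have h8 : ((r S n : ℝ) - c) ^ 2 ≤ (3 * (R : ℝ)) ^ 2 := by
        rw [← sq_abs]
        exact pow_le_pow_left₀ (abs_nonneg _) h7 2
      linarith [h8]
    rw [← Finset.mul_sum] at h3
    have h4 := geo ht ht1 M
    have h5 : 9 * (R : ℝ) ^ 2 * ∑ n ∈ range (M + 1), Real.exp (-(2 * t * n)) ≤
        9 * (R : ℝ) ^ 2 * (3 / (2 * t)) := mul_le_mul_of_nonneg_left h4 (by positivity)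
    have h6 : 9 * (R : ℝ) ^ 2 * (3 / (2 * t)) ≤ 16 * (R : ℝ) ^ 2 / t := by
      have : 9 * (R : ℝ) ^ 2 * (3 / (2 * t)) = (27 / 2) * (R : ℝ) ^ 2 / t := by
        field_simp
        ring
      rw [this]
      apply div_le_div_of_nonneg_right _ ht.le
      nlinarith [sq_nonneg (R : ℝ)]
    linarith
  have hs : 0 < Real.sqrt t := Real.sqrt_pos.2 ht
  have hsq : Real.sqrt t * Real.sqrt t = t := Real.mul_self_sqrt ht.le
  have hR0 : (0 : ℝ) ≤ R := Nat.cast_nonneg _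
  have hsU : Real.sqrt WU ≤ 4 * R / Real.sqrt t := by
    apply Real.sqrt_le_iff.2
    refine ⟨by positivity, ?_⟩
    have : (4 * (R : ℝ) / Real.sqrt t) ^ 2 = 16 * (R : ℝ) ^ 2 / t := by
      rw [div_pow, sq (Real.sqrt t), hsq]
      ring
    rw [this]
    linarith
  have hsV : Real.sqrt WV ≤ 5 * K := by
    apply Real.sqrt_le_iff.2
    refine ⟨by positivity, ?_⟩
    nlinarith [sq_nonneg (K : ℝ)]
  have hcr : 2 * c * Real.sqrt WU * Real.sqrt WV ≤
      120 * (R : ℝ) ^ 2 * (K : ℝ) ^ 2 * (1 / Real.sqrt t) := by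
    have a1 : 2 * c * Real.sqrt WU * Real.sqrt WV ≤
        2 * (3 * R) * (4 * R / Real.sqrt t) * (5 * K) := by
      apply mul_le_mul _ hsV (Real.sqrt_nonneg _) (by positivity)
      apply mul_le_mul _ hsU (Real.sqrt_nonneg _) (by positivity)
      linarith
    have a2 : 2 * (3 * (R : ℝ)) * (4 * R / Real.sqrt t) * (5 * K) =
        120 * (R : ℝ) ^ 2 * K * (1 / Real.sqrt t) := by ring
    have a3 : 120 * (R : ℝ) ^ 2 * K * (1 / Real.sqrt t) ≤
        120 * (R : ℝ) ^ 2 * (K : ℝ) ^ 2 * (1 / Real.sqrt t) := by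
      apply mul_le_mul_of_nonneg_right _ (by positivity)
      apply mul_le_mul_of_nonneg_left _ (by positivity)
      nlinarith
    linarith
  have hc2 : c ^ 2 * WV ≤ 180 * (R : ℝ) ^ 2 * (K : ℝ) ^ 2 := by
    have a1 : c ^ 2 ≤ 9 * (R : ℝ) ^ 2 := by nlinarith
    have a2 : c ^ 2 * WV ≤ 9 * (R : ℝ) ^ 2 * (20 * (K : ℝ) ^ 2) :=
      mul_le_mul a1 hWV2 hV0 (by positivity)
    linarith
  have hfin : 120 * (R : ℝ) ^ 2 * (K : ℝ) ^ 2 * (1 / Real.sqrt t) ≤
      180 * (R : ℝ) ^ 2 * (K : ℝ) ^ 2 * (1 / Real.sqrt t) := by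
    apply mul_le_mul_of_nonneg_right _ (by positivity)
    nlinarith [mul_nonneg (sq_nonneg (R : ℝ)) (sq_nonneg (K : ℝ))]
  rw [mul_add, mul_one]
  linarith

end Pool.Agent.W853.EB
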